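import Pool.Agent.TH71.GR.Stm

set_option autoImplicit false

/-!
# The control of the whole algorithm is polynomial
-/

namespace Pool.Agent.TH494.GR

open Pool.Agent.NPC Pool.Agent.H558R2 Pool.Agent.H622R3.SM Pool.Agent.W920.FC Pool.Agent.W920.FD
open Pool.Agent.TH71.PG Pool.Agent.TH71.GR

namespace TCTL

theorem shr_stages (V : VS) (E J : ℕ) : Shr (W920.FD.stages V E J) := by
  obtain ⟨-, -, -, shr1, shr2, shr3, shr4⟩ := lOUT
  unfold W920.FD.stages
  refine shr4 _ _ _ _ fun t => ?_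
  unfold W920.FD.stage
  refine shr2 _ _ _ _ (shr3 _) fun o => ?_
  refine shr2 _ _ _ _ (shr4 _ _ _ _ fun t => ?_) fun t => shr1 _ _
  exact shr2 _ _ _ _ (shr3 _) fun o' => shr1 _ _

theorem shr_T3 (V : VS) (Q : ℕ) (recs : List (List ℤ × ℕ)) : Shr (W920.FD.T3 V Q recs) := by
  obtain ⟨-, -, -, shr1, shr2, shr3, shr4⟩ := lOUT
  unfold W920.FD.T3
  exact shr2 _ _ _ _ (shr3 _) fun o => shr1 _ _

theorem shr_T4 (V : VS) (m n R : ℕ) (Lad : List (List ℤ × List ℤ)) :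
    Shr (W920.FD.T4 V m n R Lad) := by
  obtain ⟨-, -, -, shr1, shr2, shr3, shr4⟩ := lOUT
  unfold W920.FD.T4
  refine shr2 _ _ _ _ (shr4 _ _ _ _ fun t => ?_) fun t => shr1 _ _
  unfold W920.FD.round
  refine shr2 _ _ _ _ (shr4 _ _ _ _ fun t => ?_) fun t => shr1 _ _
  exact shr2 _ _ _ _ (shr3 _) fun o' => shr1 _ _

theorem shr_TL (m n T h : ℕ) (L : List (List Reg)) : Shr (TL m n T h L) := by
  obtain ⟨-, -, -, shr1, shr2, shr3, shr4⟩ := lOUT
  unfold TL
  exact shr2 _ _ _ _ (shr_stages _ _ _) fun s => shr2 _ _ _ _ (shr_T3 _ _ _) fun Lad =>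
    shr_T4 _ _ _ _ _

theorem shr_lev (T h J : ℕ) (o1 : List Reg) (A B : List (List Reg)) :
    Shr (lev T h J o1 A B) := by
  obtain ⟨-, -, -, shr1, shr2, shr3, shr4⟩ := lOUT
  unfold lev
  exact shr2 _ _ _ _ (shr_stages _ _ _) fun s => shr1 _ _

theorem shr_TC (k m n : ℕ) (o : List Outcome) (st : ℕ × Bool) : Shr (TC k m n o st) := by
  obtain ⟨-, -, -, shr1, shr2, shr3, shr4⟩ := lOUT
  unfold TC
  refine shr2 _ _ _ _ (shr4 _ _ _ _ fun t => shr1 _ _) fun x => ?_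
  refine shr2 _ _ _ _ (shr4 _ _ _ _ fun t => shr_lev _ _ _ _ _ _) fun B => ?_
  exact shr2 _ _ _ _ (shr_TL _ _ _ _ _) fun ans => shr1 _ _

theorem out_TC (k m n : ℕ) (o : List Outcome) : ∀ (i : ℕ) (st : ℕ × Bool),
    Out (iter (TC k m n o) i (0, false)) st → st.1 = i := by
  obtain ⟨o1, o2, o3, -⟩ := lOUT
  intro i
  induction i with
  | zero =>
    intro st h
    rw [o1 _ _ _ h]
  | succ i ih =>
    intro st h
    obtain ⟨b, hb1, hb2⟩ := o3 _ _ _ _ _ h
    have hb := ih b hb1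
    unfold TC at hb2
    obtain ⟨x, -, h3⟩ := o2 _ _ _ _ _ hb2
    obtain ⟨B, -, h4⟩ := o2 _ _ _ _ _ h3
    obtain ⟨ans, -, h5⟩ := o2 _ _ _ _ _ h4
    rw [o1 _ _ _ h5]
    show b.1 + 1 = i + 1
    rw [hb]

/-- The instances. -/
abbrev X0 : Type := List Unit × List Unit
/-- The context types. -/
abbrev X1 : Type := X0 × List Outcome
/-- The context types. -/
abbrev X2 : Type := X1 × (ℕ × Bool)
/-- The context types. -/
abbrev X3 : Type := X2 × PS
/-- The context types. -/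
abbrev X4 : Type := X3 × List (List Reg)
/-- The context types. -/
abbrev X5 : Type := X4 × Bool

/-- The last part. -/
def G4 (k m n : ℕ) (st : ℕ × Bool) (x : PS) (B : List (List Reg)) : TT (ℕ × Bool) :=
  bnd (TL m n (gT k (m + n)) (gh1 k (m + n)) (lfin k m n x B)) fun ans =>
    ret (st.1 + 1, st.2 || ans)

/-- The last two parts. -/
def G3 (k m n : ℕ) (st : ℕ × Bool) (x : PS) : TT (ℕ × Bool) :=
  bnd (iter (lev (gT k (m + n)) (gh0 k (m + n)) ((m + n) ^ k) (a1 (m + n) x)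
      (at0 m n (cd k m n st.1) x)) m [[]]) fun B => G4 k m n st x B

theorem TC_eq (k m n : ℕ) (o : List Outcome) (st : ℕ × Bool) : TC k m n o st =
    bnd (iter (fun x => ret (lpS m n (cd k m n st.1) o x)) (stp (m + n)) (lp0 m n)) fun x =>
      G3 k m n st x := rfl

theorem p_cd {α : Type} [TEnc α] (k : ℕ) (U W : α → List Unit) (i : α → ℕ)
    (hU : Pool.Agent.NPC.Poly U) (hW : Pool.Agent.NPC.Poly W) (hi : Pool.Agent.NPC.Poly i) :
    Pool.Agent.NPC.Poly (fun a => cd k (U a).length (W a).length (i a)) :=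
  Pool.Agent.NPC.Poly.getD (TQV.pCands k hU hW) hi (Pool.Agent.NPC.Poly.const _)

theorem c4 (k : ℕ) (h3 : S_PLIST k) :
    PT (fun p : X4 => G4 k p.1.1.1.1.1.length p.1.1.1.1.2.length p.1.1.2 p.1.2 p.2) := by
  have i0 : Poly (fun p : X4 => p.1.1.1.1) :=
    Poly.fst (Poly.fst (Poly.fst (Poly.fst Poly.id)))
  have i1 : Poly (fun p : X4 => p.1.1.1.1.1) := Poly.fst i0
  have i2 : Poly (fun p : X4 => p.1.1.1.1.2) := Poly.snd i0
  have i3 : Poly (fun p : X4 => p.1.1.2) := Poly.snd (Poly.fst (Poly.fst Poly.id))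
  have i4 : Poly (fun p : X4 => p.1.2) := Poly.snd (Poly.fst Poly.id)
  have i5 : Poly (fun p : X4 => p.2) := Poly.snd Poly.id
  have i6 : Poly (fun p : X4 => cd k p.1.1.1.1.1.length p.1.1.1.1.2.length p.1.1.2.1) :=
    p_cd k _ _ _ i1 i2 (Poly.fst i3)
  obtain ⟨-, -, l3, -, -, l6, l7⟩ := h3 X4 (fun p => p.1.1.1.1.1) (fun p => p.1.1.1.1.2)
    (fun p => cd k p.1.1.1.1.1.length p.1.1.1.1.2.length p.1.1.2.1) (fun p => p.1.2)
    (fun p => p.2) i1 i2 i6 i4 i5
  refine TFINAL.bndPT t_PT (fun p : X4 => TL p.1.1.1.1.1.length p.1.1.1.1.2.length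
      (gT k (p.1.1.1.1.1.length + p.1.1.1.1.2.length))
      (gh1 k (p.1.1.1.1.1.length + p.1.1.1.1.2.length))
      (lfin k p.1.1.1.1.1.length p.1.1.1.1.2.length p.1.2 p.2))
    (fun p ans => ret (p.1.1.2.1 + 1, p.1.1.2.2 || ans)) _ (fun _ => rfl) ?_ ?_
  · exact ptTL i1 i2 l7 l6 l3
  · refine t_PT.1 X5 (ℕ × Bool) (fun p => (p.1.1.1.2.1 + 1, p.1.1.1.2.2 || p.2)) ?_
    have j3 : Poly (fun p : X5 => p.1.1.1.2) :=
      Poly.snd (Poly.fst (Poly.fst (Poly.fst Poly.id)))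
    exact Poly.pair (Poly.succ (Poly.fst j3)) (Poly.or (Poly.snd j3) (Poly.snd Poly.id))

theorem c3 (k : ℕ) (h1 : S_PTLEV) (h3 : S_PLIST k) :
    PT (fun p : X3 => G3 k p.1.1.1.1.length p.1.1.1.2.length p.1.2 p.2) := by
  have i0 : Poly (fun p : X3 => p.1.1.1) := Poly.fst (Poly.fst (Poly.fst Poly.id))
  have i1 : Poly (fun p : X3 => p.1.1.1.1) := Poly.fst i0
  have i2 : Poly (fun p : X3 => p.1.1.1.2) := Poly.snd i0
  have i3 : Poly (fun p : X3 => p.1.2) := Poly.snd (Poly.fst Poly.id)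
  have i4 : Poly (fun p : X3 => p.2) := Poly.snd Poly.id
  have i6 : Poly (fun p : X3 => cd k p.1.1.1.1.length p.1.1.1.2.length p.1.2.1) :=
    p_cd k _ _ _ i1 i2 (Poly.fst i3)
  obtain ⟨l1, l2, -, -, l5, -, l7⟩ := h3 X3 (fun p => p.1.1.1.1) (fun p => p.1.1.1.2)
    (fun p => cd k p.1.1.1.1.length p.1.1.1.2.length p.1.2.1) (fun p => p.2)
    (fun _ => []) i1 i2 i6 i4 (Pool.Agent.NPC.Poly.const _)
  have hs : UPoly (fun p : X3 => p.1.1.1.1.length + p.1.1.1.2.length) :=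
    UPoly.add (UPoly.length i1) (UPoly.length i2)
  refine TFINAL.bndPT t_PT (fun p : X3 => iter (lev
      (gT k (p.1.1.1.1.length + p.1.1.1.2.length)) (gh0 k (p.1.1.1.1.length + p.1.1.1.2.length))
      ((p.1.1.1.1.length + p.1.1.1.2.length) ^ k) (a1 (p.1.1.1.1.length + p.1.1.1.2.length) p.2)
      (at0 p.1.1.1.1.length p.1.1.1.2.length
        (cd k p.1.1.1.1.length p.1.1.1.2.length p.1.2.1) p.2)) p.1.1.1.1.length [[]])
    (fun p B => G4 k p.1.1.1.1.length p.1.1.1.2.length p.1.2 p.2 B) _ (fun _ => rfl) ?_ (c4 k h3)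
  exact h1 X3 (fun p => gT k (p.1.1.1.1.length + p.1.1.1.2.length))
    (fun p => gh0 k (p.1.1.1.1.length + p.1.1.1.2.length))
    (fun p => (p.1.1.1.1.length + p.1.1.1.2.length) ^ k) (fun p => p.1.1.1.1.length)
    (fun p => a1 (p.1.1.1.1.length + p.1.1.1.2.length) p.2)
    (fun p => at0 p.1.1.1.1.length p.1.1.1.2.length
        (cd k p.1.1.1.1.length p.1.1.1.2.length p.1.2.1) p.2)
    l7 l5 (TQV.uPow hs k) (UPoly.length i1) l1 l2

theorem c2 (k : ℕ) (h1 : S_PTLEV) (h2 : S_PTPOT) (h3 : S_PLIST k) :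
    PT (fun p : X2 => TC k p.1.1.1.length p.1.1.2.length p.1.2 p.2) := by
  have i0 : Poly (fun p : X2 => p.1.1) := Poly.fst (Poly.fst Poly.id)
  have i1 : Poly (fun p : X2 => p.1.1.1) := Poly.fst i0
  have i2 : Poly (fun p : X2 => p.1.1.2) := Poly.snd i0
  have i3 : Poly (fun p : X2 => p.1.2) := Poly.snd (Poly.fst Poly.id)
  have i4 : Poly (fun p : X2 => p.2.1) := Poly.fst (Poly.snd Poly.id)
  have i6 : Poly (fun p : X2 => cd k p.1.1.1.length p.1.1.2.length p.2.1) :=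
    p_cd k _ _ _ i1 i2 i4
  refine TFINAL.bndPT t_PT (fun p : X2 =>
      iter (fun x => (ret (lpS p.1.1.1.length p.1.1.2.length
        (cd k p.1.1.1.length p.1.1.2.length p.2.1) p.1.2 x) : TT PS))
        (stp (p.1.1.1.length + p.1.1.2.length)) (lp0 p.1.1.1.length p.1.1.2.length))
    (fun p x => G3 k p.1.1.1.length p.1.1.2.length p.2 x) _ (fun _ => TC_eq _ _ _ _ _) ?_
    (c3 k h1 h3)
  exact h2 X2 (fun p => p.1.1.1) (fun p => p.1.1.2)
    (fun p => cd k p.1.1.1.length p.1.1.2.length p.2.1) (fun p => p.1.2) i1 i2 i6 i3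

theorem c1 (k : ℕ) (h1 : S_PTLEV) (h2 : S_PTPOT) (h3 : S_PLIST k) :
    PT (fun p : X1 => iter (TC k p.1.1.length p.1.2.length p.2)
      (cands k p.1.1.length p.1.2.length).length (0, false)) := by
  have i0 : Poly (fun p : X1 => p.1) := Poly.fst Poly.id
  have i1 : Poly (fun p : X1 => p.1.1) := Poly.fst i0
  have i2 : Poly (fun p : X1 => p.1.2) := Poly.snd i0
  have un : UPoly (fun p : X1 => (cands k p.1.1.length p.1.2.length).length) :=
    UPoly.length (TQV.pCands k i1 i2)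
  obtain ⟨pn, hpn⟩ := TQ1.upoly_bound un
  refine t_PTITER X1 (ℕ × Bool) (fun p st => TC k p.1.1.length p.1.2.length p.2 st)
    (fun p => (cands k p.1.1.length p.1.2.length).length) (fun _ => (0, false)) (c2 k h1 h2 h3) un
    (Pool.Agent.NPC.Poly.const _) (fun p st => shr_TC _ _ _ _ _) ⟨4 * pn + 10, ?_⟩
  intro p i st hi hout
  have e1 : st.1 = i := out_TC k _ _ _ i st hout
  have e2 : sz st = sz st.1 + sz st.2 + 1 := sz_pair st.1 st.2
  have e3 := sz_nat_le st.1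
  have e4 : st.1.size ≤ st.1 := Nat.size_le.2 Nat.lt_two_pow_self
  have e5 := sz_bool_le st.2
  have e6 := hpn p
  have hi' : i ≤ (cands k p.1.1.length p.1.2.length).length := hi
  have e7 : (cands k p.1.1.length p.1.2.length).length ≤ pn.eval (sz p) := e6
  simp only [Polynomial.eval_add, Polynomial.eval_mul, Polynomial.eval_ofNat]
  omega

end TCTL

open TCTL in
theorem t_CTL (k : ℕ) (h1 : S_PTLEV) (h2 : S_PTPOT) (h3 : S_PLIST k) : S_CTL k := by
  have i1 : Poly (fun p : X0 => p.1) := Poly.fst Poly.id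
  have i2 : Poly (fun p : X0 => p.2) := Poly.snd Poly.id
  obtain ⟨-, -, -, l4, -, -, -⟩ := h3 X0 (fun p => p.1) (fun p => p.2) (fun _ => ([], []))
    (fun _ => []) (fun _ => []) i1 i2 (Pool.Agent.NPC.Poly.const _) (Pool.Agent.NPC.Poly.const _) (Pool.Agent.NPC.Poly.const _)
  refine TFINAL.bndPT t_PT (fun p : X0 => batch (supQs p.1.length p.2.length))
    (fun p o => bnd (iter (TC k p.1.length p.2.length o) (cands k p.1.length p.2.length).length
      (0, false)) fun st => ret st.2) _ (fun _ => rfl) ?_ ?_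
  · exact t_PT.2.2 X0 _ l4
  · refine TFINAL.bndPT t_PT (fun p : X1 => iter (TC k p.1.1.length p.1.2.length p.2)
      (cands k p.1.1.length p.1.2.length).length (0, false))
      (fun _ st => ret st.2) _ (fun _ => rfl) (c1 k h1 h2 h3) ?_
    exact t_PT.1 (X1 × (ℕ × Bool)) Bool (fun p => p.2.2) (Poly.snd (Poly.snd Poly.id))

end Pool.Agent.TH494.GR
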